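import Pool.Agent.H18.RP.Rd

set_option autoImplicit false

/-! The law for all the segments of progressions at once. -/

namespace Pool.Agent.H18.RP
open Finset
open Pool.Agent.K7.H57.Cub
open Pool.Agent.Y692.QS
open Pool.Agent.X22.CC
open Pool.Agent.TH894.NE (box mem_box card_box)

/-- the type of the parameters -/
abbrev Par (κ : Type) : Type := κ × (ZMod 3 × ZMod 3) × ((ℕ × ℤ × ℤ) × (ℕ × ℕ × ℕ))

open Classical in
/-- the parameters -/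
noncomputable def QQ {κ : Type} (Λ : ℕ → Finset κ) (C N : ℕ) : Finset (Par κ) :=
  ((Λ N) ×ˢ (univ : Finset (ZMod 3 × ZMod 3)) ×ˢ ((range (N ^ C + 1) ×ˢ Icc (-((N : ℤ) ^ C)) ((N : ℤ) ^ C) ×ˢ ({1, -1} : Finset ℤ)) ×ˢ
    (range (N ^ (C + 2) + 1) ×ˢ range (N ^ (C + 2) + 1) ×ˢ range (N + 1)))).filter (fun q => 1 ≤ q.2.2.1.1 ∧ IsCoprime q.2.2.1.2.1 (q.2.2.1.1 : ℤ))

lemma QQ_card {κ : Type} (Λ : ℕ → Finset κ) (A C N : ℕ) (hN : 2 ≤ N) (hΛ : (Λ N).card ≤ N ^ A) : (QQ Λ C N).card ≤ N ^ (A + 4 * C + 16) := by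
  classical
  unfold QQ
  refine (card_filter_le _ _).trans ?_
  rw [card_product, card_product, card_product, card_product, card_product, card_product, card_product, card_range, card_range, card_range, Int.card_Icc]
  have e1 : (univ : Finset (ZMod 3 × ZMod 3)).card = 9 := by decide
  rw [e1]
  have e2 : ({1, -1} : Finset ℤ).card = 2 := by decide
  rw [e2]
  have h0 : ∀ c, N ^ c + 1 ≤ N ^ (c + 1) := by
    intro c
    have h2 : N ^ (c + 1) = N ^ c * N := by ring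
    have h3 : 1 ≤ N ^ c := Nat.one_le_pow _ _ (by omega)
    have h4 : N ^ c * 2 ≤ N ^ c * N := Nat.mul_le_mul_left _ hN
    omega
  have e3 : ((N : ℤ) ^ C + 1 - -((N : ℤ) ^ C)).toNat ≤ N ^ (C + 2) := by
    have h1 : ((N : ℤ) ^ C + 1 - -((N : ℤ) ^ C)) = ((2 * N ^ C + 1 : ℕ) : ℤ) := by
      push_cast
      ring
    rw [h1, Int.toNat_natCast]
    have h2 : N ^ (C + 2) = N ^ C * (N * N) := by ring
    have h3 : 1 ≤ N ^ C := Nat.one_le_pow _ _ (by omega)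
    have h5 : 3 ≤ N * N := by nlinarith
    have h4 : N ^ C * 3 ≤ N ^ C * (N * N) := Nat.mul_le_mul_left _ h5
    omega
  have h2 : 9 ≤ N ^ 4 := by
    calc 9 ≤ 2 ^ 4 := by norm_num
      _ ≤ N ^ 4 := Nat.pow_le_pow_left hN 4
  have h3 : N + 1 ≤ N ^ 2 := by
    have := h0 1
    rwa [pow_one] at this
  calc (Λ N).card * (9 * ((N ^ C + 1) * (((N : ℤ) ^ C + 1 - -((N : ℤ) ^ C)).toNat * 2) * ((N ^ (C + 2) + 1) * ((N ^ (C + 2) + 1) * (N + 1))))) ≤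
        N ^ A * (N ^ 4 * (N ^ (C + 1) * (N ^ (C + 2) * N) * (N ^ (C + 2 + 1) * (N ^ (C + 2 + 1) * N ^ 2)))) :=
        Nat.mul_le_mul hΛ (Nat.mul_le_mul h2 (Nat.mul_le_mul (Nat.mul_le_mul (h0 C) (Nat.mul_le_mul e3 hN))
          (Nat.mul_le_mul (h0 (C + 2)) (Nat.mul_le_mul (h0 (C + 2)) h3))))
    _ = _ := by ring

/-- the sums are small at `m`, `N` -/
def GoodR {κ : Type} (w : κ → ℕ → ℂ) (Λ : ℕ → Finset κ) (C : ℕ) (δ : ℝ) (N : ℕ) (a : Ei) : Prop :=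
  ∀ i ∈ Λ N, ∀ χ : ℤ → ℂ, (∀ n, ‖χ n‖ ≤ 1) → (∀ m n : ℤ, χ (m * n) = χ m * χ n) →
    (∃ u v : ZMod 3, ∀ n : ℕ, n ≠ 0 → ¬ 3 ∣ n → χ n = FF n (star (epz u v)) * FF n a) →
    ∀ (z : ℕ) (x : ℤ) (H : ℕ), 1 ≤ z → z ≤ N ^ C → |x| ≤ (N : ℤ) ^ C → IsCoprime x (z : ℤ) → H ≤ N →
      ‖∑ k ∈ Icc 1 H, w i k * χ (z * k + x)‖ ≤ (N : ℝ) ^ (1 / 2 + δ)

open Classical in
/-- **The law for affine families.** -/
theorem lawR (d A C : ℕ) (δ : ℝ) (hδ : 0 < δ) : ∃ c : ℝ, 0 < c ∧ ∃ y₀ : ℕ, ∀ (y L B : ℕ) (a : (Fin d → ℕ) → Ei), y₀ ≤ y → Aff d B a →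
    B ≠ 0 → B ≤ y ^ A → ∀ (κ : Type) (w : κ → ℕ → ℂ) (Λ : ℕ → Finset κ), (∀ i n, ‖w i n‖ ≤ 1) → (∀ N, (Λ N).card ≤ N ^ A) →
    (((box d L).filter (fun m => ¬ ∀ N : ℕ, y ≤ N → (N : ℝ) ≤ (L : ℝ) ^ c → GoodR w Λ C δ N (a m))).card : ℝ) ≤ (L : ℝ) ^ d / (y : ℝ) ^ A := by
  obtain ⟨c, hc, y₀, h⟩ := law_gen d A (C + 2) (A + 4 * C + 16) δ hδ
  obtain ⟨N₀, hdec⟩ := decomp C δ hδ
  refine ⟨c, hc, y₀ + N₀ + 2, fun y L B a hy ha hB hBy κ w Λ hw hΛ => ?_⟩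
  have h1 := h y L B a (by omega) ha hB hBy (Par κ) (fun N => QQ Λ C N)
    (fun N q => SS q.2.2.1.1 q.2.2.1.2.1 q.2.2.1.2.2 (q.2.2.2.1, q.2.2.2.2.1) q.2.2.2.2.2)
    (fun N q n => w q.1 (kk q.2.2.1.1 q.2.2.1.2.1 q.2.2.1.2.2 q.2.2.2.1 n) * FF n (star (epz q.2.1.1 q.2.1.2)))
    (fun N hN => QQ_card Λ A C N hN (hΛ N))
    (by
      intro N hN q hq
      unfold QQ at hq
      simp only [mem_filter, mem_product, mem_univ, mem_range, mem_Icc, true_and, mem_insert, mem_singleton] at hq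
      exact SS_tst hN hq.1.2.1.2.2 hq.2.1 (by omega) hq.2.2 (abs_le.2 hq.1.2.1.2.1) (by omega))
    (by
      intro N q n
      rw [norm_mul]
      calc ‖w q.1 (kk q.2.2.1.1 q.2.2.1.2.1 q.2.2.1.2.2 q.2.2.2.1 n)‖ * ‖FF n (star (epz q.2.1.1 q.2.1.2))‖ ≤ 1 * 1 :=
            mul_le_mul (hw _ _) (FF_norm _ _) (norm_nonneg _) zero_le_one
        _ = 1 := one_mul 1)
  refine le_trans ?_ h1
  have h2 : ((box d L).filter (fun m => ¬ ∀ N : ℕ, y ≤ N → (N : ℝ) ≤ (L : ℝ) ^ c → GoodR w Λ C δ N (a m))) ⊆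
      (box d L).filter (fun m => ¬ ∀ N : ℕ, y ≤ N → (N : ℝ) ≤ (L : ℝ) ^ c → ∀ q ∈ QQ Λ C N,
      ‖∑ n ∈ SS q.2.2.1.1 q.2.2.1.2.1 q.2.2.1.2.2 (q.2.2.2.1, q.2.2.2.2.1) q.2.2.2.2.2,
        w q.1 (kk q.2.2.1.1 q.2.2.1.2.1 q.2.2.1.2.2 q.2.2.2.1 n) * FF n (star (epz q.2.1.1 q.2.1.2)) * FF n (a m)‖ ≤ (N : ℝ) ^ (1 / 2 + δ / 2)) := by
    intro m hm
    rw [mem_filter] at hm ⊢
    refine ⟨hm.1, fun hcon => hm.2 ?_⟩
    intro N hyN hNL i hi χ hχ1 hχm hχ z x H hz hzC hx hcop hH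
    obtain ⟨u, v, huv⟩ := hχ
    apply hdec N (by omega) z x H hz hzC hx hH (w i) χ (hw i) hχ1 hχm
    intro s hs t l ht hl
    have h3 := hcon N hyN hNL (i, (u, v), ((z, x, s), (t, l, H))) (by
      unfold QQ
      simp only [mem_filter, mem_product, mem_univ, mem_range, mem_Icc, true_and, mem_insert, mem_singleton]
      exact ⟨⟨hi, ⟨by omega, abs_le.1 hx, hs⟩, by omega, by omega, by omega⟩, hz, hcop⟩)
    refine le_trans (le_of_eq ?_) h3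
    congr 1
    apply sum_congr rfl
    intro c hc
    simp only at hc ⊢
    have hT := SS_tst (C := C) (N := N) (τ := (t, l)) (H := H) (by omega) hs hz hzC hcop hx hH
    rw [huv c (hT.ne c hc) (hT.three c hc)]
    ring
  exact_mod_cast card_le_card h2

end Pool.Agent.H18.RP
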