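import Pool.Agent.H18.RP.Seg

set_option autoImplicit false

/-! Cubic characters on segments of progressions for almost all members of affine families: the moments and the exceptions. -/

namespace Pool.Agent.H18.RP
open Finset
open Pool.Agent.K7.H57.Cub
open Pool.Agent.Y692.QS
open Pool.Agent.X22.CC
open Pool.Agent.TH894.NE (box mem_box card_box)

/-- the admissible sets -/
structure Tst (C N : ℕ) (S : Finset ℕ) : Prop where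
  ex : ∃ z R : ℕ, 1 ≤ z ∧ z ≤ N ^ C ∧ 1 ≤ R ∧ Seg z N S ∧ ∀ n ∈ S, R ≤ cf n ∧ cf n < 2 * R
  le : ∀ n ∈ S, n ≤ N ^ C
  three : ∀ n ∈ S, ¬ 3 ∣ n

lemma Tst.ne {C N : ℕ} {S : Finset ℕ} (h : Tst C N S) : ∀ n ∈ S, n ≠ 0 := by
  obtain ⟨z, R, -, -, -, h1, -⟩ := h.ex
  exact h1.pos

lemma Tst.card {C N : ℕ} {S : Finset ℕ} (h : Tst C N S) (hN : 2 ≤ N) : S.card ≤ N ^ 2 := by
  obtain ⟨z, R, hz, -, -, h1, -⟩ := h.ex
  have h2 := card_mod S z (z * N) hz (fun n hn n' hn' hnn => ⟨h1.cong n hn n' hn' hnn, h1.diam n hn n' hn' hnn⟩)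
  rw [Nat.mul_div_cancel_left _ (by omega)] at h2
  have h3 : N ^ 2 = N * N := sq N
  have h4 : 2 * N ≤ N * N := Nat.mul_le_mul_right _ hN
  omega

lemma q_leS {N C k : ℕ} {S : Finset ℕ} (hN : 2 ≤ N) (hS : ∀ n ∈ S, n ≤ N ^ C) (g : Fin (k + k) → ℕ) (hg : ∀ j, g j ∈ S) :
    ∏ j, g j ^ sg k j ≤ N ^ (4 * k * C) := by
  have h1 : ∀ j, g j ^ sg k j ≤ (N ^ C) ^ 2 := by
    intro j
    have h5 : 1 ≤ N ^ C := Nat.one_le_pow _ _ (by omega)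
    calc g j ^ sg k j ≤ (N ^ C) ^ sg k j := Nat.pow_le_pow_left (hS _ (hg j)) _
      _ ≤ (N ^ C) ^ 2 := Nat.pow_le_pow_right h5 (by rcases sg_cases k j with h | h <;> omega)
  calc ∏ j, g j ^ sg k j ≤ ∏ _j : Fin (k + k), (N ^ C) ^ 2 := prod_le_prod' fun j _ => h1 j
    _ = N ^ (4 * k * C) := by
        rw [prod_const, card_univ, Fintype.card_fin, ← pow_mul, ← pow_mul]
        congr 1
        ring

/-- **One family of weights.** -/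
theorem one_levelS (d k : ℕ) (hk : 1 ≤ k) (ε : ℝ) (hε : 0 < ε) (A C : ℕ) : ∃ K : ℝ, 0 < K ∧ ∃ E : ℕ,
    ∀ N B L : ℕ, 2 ≤ N → B ≠ 0 → B ≤ N ^ A → N ^ E ≤ L →
    ∀ a : (Fin d → ℕ) → Ei, Aff d B a → ∀ S : Finset ℕ, Tst C N S → ∀ v : ℕ → ℂ, (∀ n, ‖v n‖ ≤ 1) →
    ∑ m ∈ box d L, ‖∑ n ∈ S, v n * FF n (a m)‖ ^ (2 * k) ≤ (L : ℝ) ^ d * (K * (N : ℝ) ^ ((k : ℝ) + ε)) := by
  classical
  obtain ⟨K₀, hK₀, h0⟩ := coreS (k + k) (by omega) ε hε A C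
  refine ⟨K₀ + d, by positivity, 4 * k + 4 * k * C, fun N B L hN hB hBA hL a ha S hS v hv => ?_⟩
  have hN0 : (0 : ℝ) < N := by exact_mod_cast (by omega : 0 < N)
  have hN1 : (1 : ℝ) ≤ N := by exact_mod_cast (by omega : 1 ≤ N)
  have hL1 : 1 ≤ L := (Nat.one_le_pow _ _ (by omega)).trans hL
  have hL0 : (0 : ℝ) < L := by exact_mod_cast hL1
  have hSn : ∀ n ∈ S, n ≠ 0 ∧ ¬ 3 ∣ n := fun n hn => ⟨hS.ne n hn, hS.three n hn⟩
  refine (moment a S hSn v hv k (box d L)).trans ?_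
  have h1 : ∀ g ∈ Fintype.piFinset (fun _ : Fin (k + k) => S), ‖∑ m ∈ box d L, FF (∏ j, g j ^ sg k j) (a m)‖ ≤
      (L : ℝ) ^ d * (1 / Zr (∏ j, g j ^ sg k j) B + d * (N : ℝ) ^ (4 * k * C) / L) := by
    intro g hg
    rw [Fintype.mem_piFinset] at hg
    have hq0 : ∏ j, g j ^ sg k j ≠ 0 := prod_ne_zero_iff.2 fun j _ => pow_ne_zero _ (hSn _ (hg j)).1
    have hq3 : ¬ 3 ∣ ∏ j, g j ^ sg k j := by
      intro h
      obtain ⟨j, _, hj⟩ := (Nat.Prime.prime Nat.prime_three).exists_mem_finset_dvd h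
      exact three_pow (hSn _ (hg j)).2 _ hj
    refine (box_mean ha _ L hq0 hq3 (by omega)).trans ?_
    apply mul_le_mul_of_nonneg_left _ (by positivity)
    have h2 : ((∏ j, g j ^ sg k j : ℕ) : ℝ) ≤ (N : ℝ) ^ (4 * k * C) := by
      exact_mod_cast q_leS hN hS.le g hg
    gcongr
  refine (sum_le_sum h1).trans ?_
  rw [← mul_sum, sum_add_distrib]
  apply mul_le_mul_of_nonneg_left _ (by positivity)
  obtain ⟨z, R, hz, hzC, hR, hseg, hSR⟩ := hS.ex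
  have h2 : ∑ g ∈ Fintype.piFinset (fun _ : Fin (k + k) => S), 1 / (Zr (∏ j, g j ^ sg k j) B : ℝ) ≤ K₀ * (N : ℝ) ^ ((k : ℝ) + ε) := by
    have h3 := h0 N z R B hN hz hzC hR hB hBA S hseg hS.le hSR (sg k) (sg_cases k)
    have e : ((k + k : ℕ) : ℝ) / 2 + ε = k + ε := by push_cast; ring
    rw [e] at h3
    exact h3
  have h4 : ∑ _g ∈ Fintype.piFinset (fun _ : Fin (k + k) => S), (d : ℝ) * (N : ℝ) ^ (4 * k * C) / L ≤ d * (N : ℝ) ^ ((k : ℝ) + ε) := by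
    rw [sum_const, nsmul_eq_mul, Fintype.card_piFinset_const]
    have h5 : ((S.card ^ (k + k) : ℕ) : ℝ) ≤ (N : ℝ) ^ (4 * k) := by
      have h6 : S.card ^ (k + k) ≤ N ^ (4 * k) := by
        calc S.card ^ (k + k) ≤ (N ^ 2) ^ (k + k) := Nat.pow_le_pow_left (hS.card hN) _
          _ = N ^ (4 * k) := by rw [← pow_mul]; congr 1; ring
      exact_mod_cast h6
    have h6 : (N : ℝ) ^ (4 * k) * (N : ℝ) ^ (4 * k * C) ≤ L := by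
      rw [← pow_add]
      exact_mod_cast hL
    have h7 : (1 : ℝ) ≤ (N : ℝ) ^ ((k : ℝ) + ε) := Real.one_le_rpow hN1 (by positivity)
    calc ((S.card ^ (k + k) : ℕ) : ℝ) * ((d : ℝ) * (N : ℝ) ^ (4 * k * C) / L) ≤ (N : ℝ) ^ (4 * k) * ((d : ℝ) * (N : ℝ) ^ (4 * k * C) / L) :=
          mul_le_mul_of_nonneg_right h5 (by positivity)
      _ = d * (((N : ℝ) ^ (4 * k) * (N : ℝ) ^ (4 * k * C)) / L) := by ring
      _ ≤ d * 1 := by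
          apply mul_le_mul_of_nonneg_left _ (Nat.cast_nonneg _)
          rw [div_le_one hL0]
          exact h6
      _ ≤ _ := mul_le_mul_of_nonneg_left h7 (Nat.cast_nonneg _)
  rw [add_mul]
  exact add_le_add h2 h4

/-- the exceptions for one family of weights -/
lemma exc_oneS (d : ℕ) (δ : ℝ) (hδ : 0 < δ) (A C P : ℕ) : ∃ E : ℕ, ∃ N₀ : ℕ,
    ∀ N B L : ℕ, N₀ ≤ N → B ≠ 0 → B ≤ N ^ A → N ^ E ≤ L →
    ∀ a : (Fin d → ℕ) → Ei, Aff d B a → ∀ S : Finset ℕ, Tst C N S → ∀ v : ℕ → ℂ, (∀ n, ‖v n‖ ≤ 1) →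
    ∀ Ex ⊆ box d L, (∀ m ∈ Ex, (N : ℝ) ^ (1 / 2 + δ / 2) < ‖∑ n ∈ S, v n * FF n (a m)‖) → (Ex.card : ℝ) ≤ (N : ℝ) ^ (-(P : ℝ)) * (L : ℝ) ^ d := by
  classical
  obtain ⟨k, hk⟩ : ∃ k, k = ⌈((P : ℝ) + 2) / δ⌉₊ + 1 := ⟨_, rfl⟩
  have hk1 : 1 ≤ k := by omega
  have hkδ : (P : ℝ) + 2 ≤ k * δ := by
    have h1 : ((P : ℝ) + 2) / δ ≤ k := by
      rw [hk]
      push_cast
      have := Nat.le_ceil (((P : ℝ) + 2) / δ)
      linarith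
    rwa [div_le_iff₀ hδ] at h1
  obtain ⟨K, hK, E, h⟩ := one_levelS d k hk1 1 one_pos A C
  obtain ⟨N₁, hN₁⟩ := exists_nat_ge K
  refine ⟨E, N₁ + 2, fun N B L hN hB hBA hL a ha S hS v hv Ex hEx hExb => ?_⟩
  have hN0 : (0 : ℝ) < N := by exact_mod_cast (by omega : 0 < N)
  have hN1 : (1 : ℝ) ≤ N := by exact_mod_cast (by omega : 1 ≤ N)
  have h1 := h N B L (by omega) hB hBA hL a ha S hS v hv
  have h2 : (Ex.card : ℝ) * ((N : ℝ) ^ (1 / 2 + δ / 2)) ^ (2 * k) ≤ ∑ m ∈ box d L, ‖∑ n ∈ S, v n * FF n (a m)‖ ^ (2 * k) := by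
    calc (Ex.card : ℝ) * ((N : ℝ) ^ (1 / 2 + δ / 2)) ^ (2 * k) = ∑ _m ∈ Ex, ((N : ℝ) ^ (1 / 2 + δ / 2)) ^ (2 * k) := by rw [sum_const, nsmul_eq_mul]
      _ ≤ ∑ m ∈ Ex, ‖∑ n ∈ S, v n * FF n (a m)‖ ^ (2 * k) :=
          sum_le_sum fun m hm => pow_le_pow_left₀ (by positivity) (hExb m hm).le _
      _ ≤ _ := sum_le_sum_of_subset_of_nonneg hEx fun m _ _ => by positivity
  have hKN : K ≤ (N : ℝ) ^ (1 : ℝ) := by
    rw [Real.rpow_one]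
    refine hN₁.trans ?_
    exact_mod_cast (by omega : N₁ ≤ N)
  have h4 : K * (N : ℝ) ^ ((k : ℝ) + 1) ≤ (N : ℝ) ^ (-(P : ℝ)) * ((N : ℝ) ^ (1 / 2 + δ / 2)) ^ (2 * k) := by
    calc K * (N : ℝ) ^ ((k : ℝ) + 1) ≤ (N : ℝ) ^ (1 : ℝ) * (N : ℝ) ^ ((k : ℝ) + 1) := mul_le_mul_of_nonneg_right hKN (by positivity)
      _ = (N : ℝ) ^ (1 + ((k : ℝ) + 1)) := by rw [← Real.rpow_add hN0]
      _ ≤ (N : ℝ) ^ (-(P : ℝ) + (1 / 2 + δ / 2) * (2 * k : ℕ)) := by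
          apply Real.rpow_le_rpow_of_exponent_le hN1
          push_cast
          nlinarith
      _ = _ := by
          rw [← Real.rpow_natCast ((N : ℝ) ^ (1 / 2 + δ / 2)), ← Real.rpow_mul hN0.le, Real.rpow_add hN0]
  have h6 : (Ex.card : ℝ) * ((N : ℝ) ^ (1 / 2 + δ / 2)) ^ (2 * k) ≤ ((N : ℝ) ^ (-(P : ℝ)) * (L : ℝ) ^ d) * ((N : ℝ) ^ (1 / 2 + δ / 2)) ^ (2 * k) := by
    refine (h2.trans h1).trans ?_
    calc (L : ℝ) ^ d * (K * (N : ℝ) ^ ((k : ℝ) + 1)) ≤ (L : ℝ) ^ d * ((N : ℝ) ^ (-(P : ℝ)) * ((N : ℝ) ^ (1 / 2 + δ / 2)) ^ (2 * k)) :=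
          mul_le_mul_of_nonneg_left h4 (by positivity)
      _ = _ := by ring
  exact le_of_mul_le_mul_right h6 (by positivity)

open Classical in
/-- **The general law for affine families.** -/
theorem law_gen (d A C A' : ℕ) (δ : ℝ) (hδ : 0 < δ) : ∃ c : ℝ, 0 < c ∧ ∃ y₀ : ℕ, ∀ (y L B : ℕ) (a : (Fin d → ℕ) → Ei), y₀ ≤ y → Aff d B a →
    B ≠ 0 → B ≤ y ^ A → ∀ (κ : Type) (Q : ℕ → Finset κ) (S : ℕ → κ → Finset ℕ) (v : ℕ → κ → ℕ → ℂ), (∀ N, 2 ≤ N → (Q N).card ≤ N ^ A') →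
    (∀ N, 2 ≤ N → ∀ q ∈ Q N, Tst C N (S N q)) → (∀ N q n, ‖v N q n‖ ≤ 1) →
    (((box d L).filter (fun m => ¬ ∀ N : ℕ, y ≤ N → (N : ℝ) ≤ (L : ℝ) ^ c → ∀ q ∈ Q N,
      ‖∑ n ∈ S N q, v N q n * FF n (a m)‖ ≤ (N : ℝ) ^ (1 / 2 + δ / 2))).card : ℝ) ≤ (L : ℝ) ^ d / (y : ℝ) ^ A := by
  obtain ⟨P, hP⟩ : ∃ P, P = A' + (A + 4) := ⟨_, rfl⟩
  obtain ⟨E, N₁, h⟩ := exc_oneS d δ hδ A C P
  obtain ⟨c, hc⟩ : ∃ c : ℝ, c = 1 / (E + 1) := ⟨_, rfl⟩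
  have hc0 : 0 < c := by rw [hc]; positivity
  have hc1 : c ≤ 1 := by
    rw [hc, div_le_one (by positivity)]
    have : (0 : ℝ) ≤ E := Nat.cast_nonneg _
    linarith
  refine ⟨c, hc0, N₁ + 2, fun y L B a hy ha hB hBy κ Q S v hQ hS hv => ?_⟩
  obtain ⟨Ex, hEx⟩ : ∃ Ex : ℕ → κ → Finset (Fin d → ℕ),
      Ex = fun (N : ℕ) q => (box d L).filter (fun m => (N : ℝ) ≤ (L : ℝ) ^ c ∧ (N : ℝ) ^ (1 / 2 + δ / 2) < ‖∑ n ∈ S N q, v N q n * FF n (a m)‖) := ⟨_, rfl⟩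
  have hNL : ∀ N : ℕ, 1 ≤ N → (N : ℝ) ≤ (L : ℝ) ^ c → 1 ≤ L ∧ N ^ (E + 1) ≤ L := by
    intro N hN1 hN
    have hL1 : 1 ≤ L := by
      apply Nat.one_le_iff_ne_zero.2
      rintro rfl
      rw [Nat.cast_zero, Real.zero_rpow hc0.ne'] at hN
      have : (1 : ℝ) ≤ N := by exact_mod_cast hN1
      linarith
    refine ⟨hL1, ?_⟩
    have hL0 : (0 : ℝ) ≤ L := Nat.cast_nonneg _
    have h1 : (N : ℝ) ^ (E + 1) ≤ L := by
      calc (N : ℝ) ^ (E + 1) ≤ ((L : ℝ) ^ c) ^ (E + 1) := pow_le_pow_left₀ (Nat.cast_nonneg _) hN _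
        _ = L := by
            rw [← Real.rpow_natCast, ← Real.rpow_mul hL0, hc]
            push_cast
            rw [one_div, inv_mul_cancel₀ (by positivity), Real.rpow_one]
    exact_mod_cast h1
  have hexc : ∀ N : ℕ, y ≤ N → ∀ q : κ, q ∈ Q N → ((Ex N q).card : ℝ) ≤ (N : ℝ) ^ (-(P : ℝ)) * (L : ℝ) ^ d := by
    intro N hyN q hq
    have hN0 : (0 : ℝ) < N := by exact_mod_cast (by omega : 0 < N)
    by_cases hNc : (N : ℝ) ≤ (L : ℝ) ^ c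
    · obtain ⟨hL1, hL2⟩ := hNL N (by omega) hNc
      refine h N B L (by omega) hB (hBy.trans (Nat.pow_le_pow_left hyN A)) ((Nat.pow_le_pow_right (by omega) (by omega)).trans hL2) a ha
        (S N q) (hS N (by omega) q hq) (v N q) (hv N q) (Ex N q) ?_ ?_
      · rw [hEx]
        exact filter_subset _ _
      · intro m hm
        rw [hEx, mem_filter] at hm
        exact hm.2.2
    · have : Ex N q = ∅ := by
        rw [hEx]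
        apply filter_false_of_mem
        intro m _ hm
        exact hNc hm.1
      rw [this, card_empty, Nat.cast_zero]
      positivity
  have hsub : (box d L).filter (fun m => ¬ ∀ N : ℕ, y ≤ N → (N : ℝ) ≤ (L : ℝ) ^ c → ∀ q ∈ Q N,
      ‖∑ n ∈ S N q, v N q n * FF n (a m)‖ ≤ (N : ℝ) ^ (1 / 2 + δ / 2)) ⊆
      (Icc y L).biUnion (fun N => (Q N).biUnion (fun q => Ex N q)) := by
    intro m hm
    rw [mem_filter] at hm
    by_contra hcon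
    apply hm.2
    intro N hyN hNc q hq
    obtain ⟨hL1, hL2⟩ := hNL N (by omega) hNc
    by_contra hcon2
    push Not at hcon2
    apply hcon
    rw [mem_biUnion]
    refine ⟨N, ?_, ?_⟩
    · rw [mem_Icc]
      exact ⟨hyN, (Nat.le_self_pow (by omega) N).trans hL2⟩
    rw [mem_biUnion]
    refine ⟨q, hq, ?_⟩
    rw [hEx, mem_filter]
    exact ⟨hm.1, hNc, hcon2⟩
  have hone : ∀ N ∈ Icc y L, (((Q N).biUnion (fun q => Ex N q)).card : ℝ) ≤ (N : ℝ) ^ (-((A + 4 : ℕ) : ℝ)) * (L : ℝ) ^ d := by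
    intro N hN
    rw [mem_Icc] at hN
    have hN0 : (0 : ℝ) < N := by exact_mod_cast (by omega : 0 < N)
    have h1 : (((Q N).biUnion (fun q => Ex N q)).card : ℝ) ≤ ∑ q ∈ Q N, ((Ex N q).card : ℝ) := by
      exact_mod_cast card_biUnion_le
    refine h1.trans ((sum_le_sum (fun q hq => hexc N hN.1 q hq)).trans ?_)
    rw [sum_const, nsmul_eq_mul]
    have h2 : ((Q N).card : ℝ) ≤ (N : ℝ) ^ ((A' : ℕ) : ℝ) := by
      rw [Real.rpow_natCast]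
      exact_mod_cast hQ N (by omega)
    calc ((Q N).card : ℝ) * ((N : ℝ) ^ (-(P : ℝ)) * (L : ℝ) ^ d) ≤
          (N : ℝ) ^ ((A' : ℕ) : ℝ) * ((N : ℝ) ^ (-(P : ℝ)) * (L : ℝ) ^ d) :=
          mul_le_mul_of_nonneg_right h2 (by positivity)
      _ = (N : ℝ) ^ (-((A + 4 : ℕ) : ℝ)) * (L : ℝ) ^ d := by
          rw [← mul_assoc, ← Real.rpow_add hN0, hP]
          congr 2
          push_cast
          ring
  have hcard : (((box d L).filter (fun m => ¬ ∀ N : ℕ, y ≤ N → (N : ℝ) ≤ (L : ℝ) ^ c → ∀ q ∈ Q N,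
      ‖∑ n ∈ S N q, v N q n * FF n (a m)‖ ≤ (N : ℝ) ^ (1 / 2 + δ / 2))).card : ℝ) ≤
      ∑ N ∈ Icc y L, (N : ℝ) ^ (-((A + 4 : ℕ) : ℝ)) * (L : ℝ) ^ d := by
    have h1 := (card_le_card hsub).trans card_biUnion_le
    have h2 : (((box d L).filter (fun m => ¬ ∀ N : ℕ, y ≤ N → (N : ℝ) ≤ (L : ℝ) ^ c → ∀ q ∈ Q N,
      ‖∑ n ∈ S N q, v N q n * FF n (a m)‖ ≤ (N : ℝ) ^ (1 / 2 + δ / 2))).card : ℝ) ≤
        ∑ N ∈ Icc y L, (((Q N).biUnion (fun q => Ex N q)).card : ℝ) := by exact_mod_cast h1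
    exact h2.trans (sum_le_sum hone)
  refine hcard.trans ?_
  rw [← sum_mul]
  calc (∑ N ∈ Icc y L, (N : ℝ) ^ (-((A + 4 : ℕ) : ℝ))) * (L : ℝ) ^ d ≤ (1 / (y : ℝ) ^ A) * (L : ℝ) ^ d :=
        mul_le_mul_of_nonneg_right (sum_tail A y L (by omega)) (by positivity)
    _ = _ := by ring

end Pool.Agent.H18.RP
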