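import Pool.Agent.H18.RP.Lw

set_option autoImplicit false

/-! The decomposition of the sums over the segments of the progressions. -/

namespace Pool.Agent.H18.RP
open Finset
open Pool.Agent.K7.H57.Cub

/-- the exponent of three and the size of the cubefree part -/
noncomputable def tl (n : ℕ) : ℕ × ℕ := (padicValNat 3 n, Nat.log 2 (cf (n / 3 ^ padicValNat 3 n)))

/-- the positions of one type -/
noncomputable def KK (z : ℕ) (x s : ℤ) (τ : ℕ × ℕ) (H : ℕ) : Finset ℕ :=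
  (Icc 1 H).filter (fun k => 0 < s * (z * k + x) ∧ tl (s * (z * k + x)).toNat = τ)

/-- the integer of the position `k` -/
def cc (z : ℕ) (x s : ℤ) (t : ℕ) (k : ℕ) : ℕ := (s * (z * k + x)).toNat / 3 ^ t

/-- the position of the integer `c` -/
def kk (z : ℕ) (x s : ℤ) (t : ℕ) (c : ℕ) : ℕ := ((s * (3 ^ t * c) - x) / z).toNat

/-- the integers of one type -/
noncomputable def SS (z : ℕ) (x s : ℤ) (τ : ℕ × ℕ) (H : ℕ) : Finset ℕ := (KK z x s τ H).image (cc z x s τ.1)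

lemma KK_fact {z : ℕ} {x s : ℤ} {τ : ℕ × ℕ} {H k : ℕ} (h : k ∈ KK z x s τ H) :
    s * (z * k + x) = 3 ^ τ.1 * (cc z x s τ.1 k : ℤ) ∧ cc z x s τ.1 k ≠ 0 ∧ ¬ 3 ∣ cc z x s τ.1 k ∧ Nat.log 2 (cf (cc z x s τ.1 k)) = τ.2 := by
  unfold KK at h
  rw [mem_filter] at h
  obtain ⟨-, h1, h2⟩ := h
  obtain ⟨n, hn⟩ : ∃ n : ℕ, n = (s * (z * k + x)).toNat := ⟨_, rfl⟩
  have hnz : (n : ℤ) = s * (z * k + x) := by rw [hn, Int.toNat_of_nonneg h1.le]
  have hn0 : n ≠ 0 := by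
    rintro rfl
    rw [← hnz] at h1
    exact absurd h1 (by norm_num)
  rw [← hn] at h2
  unfold tl at h2
  have e1 : padicValNat 3 n = τ.1 := by rw [← h2]
  have e2 : Nat.log 2 (cf (n / 3 ^ τ.1)) = τ.2 := by rw [← e1, ← h2]
  have e3 : cc z x s τ.1 k = n / 3 ^ τ.1 := by unfold cc; rw [← hn]
  have : Fact (Nat.Prime 3) := ⟨Nat.prime_three⟩
  have hd : 3 ^ τ.1 ∣ n := by rw [← e1]; exact pow_padicValNat_dvd
  have hd2 : ¬ 3 ^ (τ.1 + 1) ∣ n := by rw [← e1]; exact pow_succ_padicValNat_not_dvd hn0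
  obtain ⟨c, hc⟩ := hd
  have e4 : n / 3 ^ τ.1 = c := by rw [hc, Nat.mul_div_cancel_left _ (by positivity)]
  rw [e3, e4]
  refine ⟨?_, ?_, ?_, ?_⟩
  · rw [← hnz, hc]
    push_cast
    ring
  · rintro rfl
    rw [mul_zero] at hc
    exact hn0 hc
  · intro h3
    apply hd2
    rw [hc, pow_succ]
    exact Nat.mul_dvd_mul_left _ h3
  · rw [← e4]
    exact e2

lemma kk_cc {z : ℕ} {x s : ℤ} {τ : ℕ × ℕ} {H k : ℕ} (hs : s = 1 ∨ s = -1) (hz : 1 ≤ z) (h : k ∈ KK z x s τ H) :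
    kk z x s τ.1 (cc z x s τ.1 k) = k := by
  have h1 := (KK_fact h).1
  have hss : s * s = 1 := by rcases hs with rfl | rfl <;> norm_num
  unfold kk
  rw [← h1, ← mul_assoc, hss, one_mul, add_sub_cancel_right, Int.mul_ediv_cancel_left _ (by omega), Int.toNat_natCast]

lemma SS_tst {C N z : ℕ} {x s : ℤ} {τ : ℕ × ℕ} {H : ℕ} (hN : 2 ≤ N) (hs : s = 1 ∨ s = -1) (hz : 1 ≤ z) (hzC : z ≤ N ^ C)
    (hcop : IsCoprime x (z : ℤ)) (hx : |x| ≤ (N : ℤ) ^ C) (hH : H ≤ N) : Tst (C + 2) N (SS z x s τ H) := by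
  have hmem : ∀ c ∈ SS z x s τ H, ∃ k, k ∈ KK z x s τ H ∧ 1 ≤ k ∧ k ≤ H ∧ s * (z * k + x) = 3 ^ τ.1 * (c : ℤ) ∧ c ≠ 0 ∧ ¬ 3 ∣ c ∧ Nat.log 2 (cf c) = τ.2 := by
    intro c hc
    unfold SS at hc
    rw [mem_image] at hc
    obtain ⟨k, hk, rfl⟩ := hc
    have h1 := KK_fact hk
    refine ⟨k, hk, ?_, ?_, h1⟩
    all_goals
      unfold KK at hk
      rw [mem_filter, mem_Icc] at hk
      omega
  have hcz : ∀ c ∈ SS z x s τ H, IsCoprime ((3 : ℤ) ^ τ.1 * (c : ℤ)) (z : ℤ) := by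
    intro c hc
    obtain ⟨k, -, -, -, h1, -⟩ := hmem c hc
    rw [← h1]
    have h2 : IsCoprime ((z : ℤ) * k + x) (z : ℤ) := by
      rw [add_comm]
      exact hcop.add_mul_left_left k
    rcases hs with rfl | rfl
    · rw [one_mul]
      exact h2
    · rw [neg_one_mul]
      exact h2.neg_left
  have hle : ∀ c ∈ SS z x s τ H, c ≤ N ^ (C + 2) := by
    intro c hc
    obtain ⟨k, -, hk1, hk2, h1, -⟩ := hmem c hc
    have h2 : (c : ℤ) ≤ 3 ^ τ.1 * (c : ℤ) := by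
      have : (1 : ℤ) ≤ 3 ^ τ.1 := one_le_pow₀ (by norm_num)
      have hc0 : (0 : ℤ) ≤ c := by positivity
      nlinarith
    have h3 : |s * (z * k + x)| ≤ (z : ℤ) * k + |x| := by
      rw [abs_mul]
      have h4 : |s| = 1 := by rcases hs with rfl | rfl <;> norm_num
      rw [h4, one_mul]
      refine (abs_add_le _ _).trans ?_
      rw [abs_of_nonneg (by positivity : (0 : ℤ) ≤ (z : ℤ) * k)]
    have h5 : (z : ℤ) * k ≤ (N : ℤ) ^ C * N := by
      have h6 : z * k ≤ N ^ C * N := Nat.mul_le_mul hzC (hk2.trans hH)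
      exact_mod_cast h6
    have h6 : (N : ℤ) ^ C * N + (N : ℤ) ^ C ≤ (N : ℤ) ^ (C + 2) := by
      have h7 : N ^ C * N + N ^ C ≤ N ^ (C + 2) := by
        have h8 : 1 ≤ N ^ C := Nat.one_le_pow _ _ (by omega)
        have h9 : N ^ (C + 2) = N ^ C * (N * N) := by ring
        have h10 : N + 1 ≤ N * N := by nlinarith
        rw [h9]
        calc N ^ C * N + N ^ C = N ^ C * (N + 1) := by ring
          _ ≤ _ := Nat.mul_le_mul_left _ h10
      exact_mod_cast h7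
    have h7 := le_abs_self (s * (z * k + x))
    rw [h1] at h7 h3
    have h8 : (c : ℤ) ≤ (N : ℤ) ^ (C + 2) := by linarith
    exact_mod_cast h8
  refine ⟨⟨z, 2 ^ τ.2, hz, hzC.trans (Nat.pow_le_pow_right (by omega) (by omega)), Nat.one_le_two_pow, ⟨?_, ?_, ?_, ?_⟩, ?_⟩, hle, ?_⟩
  · intro c hc
    obtain ⟨k, -, -, -, -, h1, -⟩ := hmem c hc
    exact h1
  · intro c hc
    exact Nat.isCoprime_iff_coprime.1 (hcz c hc).of_mul_left_right
  · intro c hc c' hc' hcc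
    obtain ⟨k, -, -, -, h1, -⟩ := hmem c hc
    obtain ⟨k', -, -, -, h1', -⟩ := hmem c' hc'
    have h2 : (3 : ℤ) ^ τ.1 * ((c' : ℤ) - c) = (z : ℤ) * (s * ((k' : ℤ) - k)) := by
      rw [mul_sub, ← h1, ← h1']
      ring
    have h3 : (z : ℤ) ∣ (c' : ℤ) - c := by
      have h4 : IsCoprime (z : ℤ) ((3 : ℤ) ^ τ.1) := (hcz c hc).of_mul_left_left.symm
      exact h4.dvd_of_dvd_mul_left (Dvd.intro _ h2.symm)
    rw [← Nat.cast_sub hcc] at h3
    exact_mod_cast h3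
  · intro c hc c' hc' hcc
    obtain ⟨k, -, hk1, hk2, h1, -⟩ := hmem c hc
    obtain ⟨k', -, hk1', hk2', h1', -⟩ := hmem c' hc'
    have h2 : (3 : ℤ) ^ τ.1 * ((c' : ℤ) - c) = (z : ℤ) * (s * ((k' : ℤ) - k)) := by
      rw [mul_sub, ← h1, ← h1']
      ring
    have h3 : (c' : ℤ) - c ≤ (3 : ℤ) ^ τ.1 * ((c' : ℤ) - c) := by
      have : (1 : ℤ) ≤ 3 ^ τ.1 := one_le_pow₀ (by norm_num)
      have hc0 : (0 : ℤ) ≤ (c' : ℤ) - c := by
        have : (c : ℤ) ≤ c' := by exact_mod_cast hcc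
        linarith
      nlinarith
    have h4 : s * ((k' : ℤ) - k) ≤ N := by
      have h5 : (k : ℤ) ≤ N := by exact_mod_cast (hk2.trans hH)
      have h6 : (k' : ℤ) ≤ N := by exact_mod_cast (hk2'.trans hH)
      have h7 : (0 : ℤ) ≤ k := by positivity
      have h8 : (0 : ℤ) ≤ k' := by positivity
      rcases hs with rfl | rfl <;> linarith
    have h5 : (z : ℤ) * (s * ((k' : ℤ) - k)) ≤ z * N := mul_le_mul_of_nonneg_left h4 (by positivity)
    have h6 : (c' : ℤ) - c ≤ z * N := by linarith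
    rw [← Nat.cast_sub hcc] at h6
    exact_mod_cast h6
  · intro c hc
    obtain ⟨k, -, -, -, -, hc0, -, h2⟩ := hmem c hc
    rw [Nat.log_eq_iff (Or.inr ⟨by norm_num, cf_ne c⟩), pow_succ'] at h2
    exact h2
  · intro c hc
    obtain ⟨k, -, -, -, -, -, h2, -⟩ := hmem c hc
    exact h2

lemma sum_KK {z : ℕ} {x s : ℤ} {τ : ℕ × ℕ} {H : ℕ} (hs : s = 1 ∨ s = -1) (hz : 1 ≤ z) (w : ℕ → ℂ) (χ : ℤ → ℂ)
    (hχ1 : ∀ n, ‖χ n‖ ≤ 1) (hχm : ∀ m n : ℤ, χ (m * n) = χ m * χ n) :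
    ‖∑ k ∈ KK z x s τ H, w k * χ (z * k + x)‖ ≤ ‖∑ c ∈ SS z x s τ H, w (kk z x s τ.1 c) * χ c‖ := by
  have hss : s * s = 1 := by rcases hs with rfl | rfl <;> norm_num
  unfold SS
  rw [sum_image (by
    intro k hk k' hk' h
    rw [← kk_cc hs hz hk, ← kk_cc hs hz hk', h])]
  have h1 : ∑ k ∈ KK z x s τ H, w k * χ (z * k + x) = χ (s * 3 ^ τ.1) * ∑ k ∈ KK z x s τ H, w (kk z x s τ.1 (cc z x s τ.1 k)) * χ (cc z x s τ.1 k : ℤ) := by
    rw [mul_sum]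
    apply sum_congr rfl
    intro k hk
    rw [kk_cc hs hz hk]
    have h2 := (KK_fact hk).1
    have h3 : (z : ℤ) * k + x = (s * 3 ^ τ.1) * (cc z x s τ.1 k : ℤ) := by
      rw [mul_assoc, ← h2, ← mul_assoc, hss, one_mul]
    rw [h3, hχm]
    ring
  rw [h1, norm_mul]
  calc ‖χ (s * 3 ^ τ.1)‖ * _ ≤ 1 * _ := mul_le_mul_of_nonneg_right (hχ1 _) (norm_nonneg _)
    _ = _ := one_mul _

/-- **The decomposition.** -/
theorem decomp (C : ℕ) (δ : ℝ) (hδ : 0 < δ) : ∃ N₀ : ℕ, ∀ N : ℕ, N₀ ≤ N → ∀ (z : ℕ) (x : ℤ) (H : ℕ), 1 ≤ z → z ≤ N ^ C →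
    |x| ≤ (N : ℤ) ^ C → H ≤ N →
    ∀ (w : ℕ → ℂ) (χ : ℤ → ℂ), (∀ n, ‖w n‖ ≤ 1) → (∀ n, ‖χ n‖ ≤ 1) → (∀ m n : ℤ, χ (m * n) = χ m * χ n) →
    (∀ s : ℤ, (s = 1 ∨ s = -1) → ∀ t l : ℕ, t ≤ N ^ (C + 2) → l ≤ N ^ (C + 2) →
      ‖∑ c ∈ SS z x s (t, l) H, w (kk z x s t c) * χ c‖ ≤ (N : ℝ) ^ (1 / 2 + δ / 2)) →
    ‖∑ k ∈ Icc 1 H, w k * χ (z * k + x)‖ ≤ (N : ℝ) ^ (1 / 2 + δ) := by
  classical
  obtain ⟨N₁, hN₁⟩ := Pool.Agent.X22.ND.absorb (2 * (C + 2) + 2) (δ / 8) (by positivity) (by positivity)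
  obtain ⟨N₂, hN₂⟩ := exists_nat_ge ((3 : ℝ) ^ (4 / δ))
  refine ⟨N₁ + N₂ + 2, fun N hN z x H hz hzC hx hH w χ hw hχ1 hχm h => ?_⟩
  have hN2 : 2 ≤ N := by omega
  have hN0 : (0 : ℝ) < N := by exact_mod_cast (by omega : 0 < N)
  have hN1 : (1 : ℝ) ≤ N := by exact_mod_cast (by omega : 1 ≤ N)
  obtain ⟨X, hX⟩ : ∃ X, X = N ^ (C + 2) := ⟨_, rfl⟩
  have hX1 : 1 ≤ X := by rw [hX]; exact Nat.one_le_pow _ _ (by omega)
  obtain ⟨J, hJ⟩ : ∃ J, J = Nat.log 2 X + 1 := ⟨_, rfl⟩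
  have hJX : J ≤ X + 1 := by
    rw [hJ]
    have := Nat.log_le_self 2 X
    omega
  rw [← hX] at h
  have hnX : ∀ s : ℤ, (s = 1 ∨ s = -1) → ∀ k ∈ Icc 1 H, (s * (z * k + x)).toNat ≤ X := by
    intro s hs k hk
    rw [mem_Icc] at hk
    have h3 : |s * (z * k + x)| ≤ (z : ℤ) * k + |x| := by
      rw [abs_mul]
      have h4 : |s| = 1 := by rcases hs with rfl | rfl <;> norm_num
      rw [h4, one_mul]
      refine (abs_add_le _ _).trans ?_
      rw [abs_of_nonneg (by positivity : (0 : ℤ) ≤ (z : ℤ) * k)]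
    have h5 : (z : ℤ) * k ≤ (N : ℤ) ^ C * N := by
      have h6 : z * k ≤ N ^ C * N := Nat.mul_le_mul hzC (hk.2.trans hH)
      exact_mod_cast h6
    have h6 : (N : ℤ) ^ C * N + (N : ℤ) ^ C ≤ (N : ℤ) ^ (C + 2) := by
      have h7 : N ^ C * N + N ^ C ≤ N ^ (C + 2) := by
        have h8 : 1 ≤ N ^ C := Nat.one_le_pow _ _ (by omega)
        have h9 : N ^ (C + 2) = N ^ C * (N * N) := by ring
        have h10 : N + 1 ≤ N * N := by nlinarith
        rw [h9]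
        calc N ^ C * N + N ^ C = N ^ C * (N + 1) := by ring
          _ ≤ _ := Nat.mul_le_mul_left _ h10
      exact_mod_cast h7
    have h7 := le_abs_self (s * (z * k + x))
    have h8 : s * (z * k + x) ≤ (X : ℤ) := by
      rw [hX]
      push_cast
      linarith
    exact Int.toNat_le.2 h8
  have hsgn : ∀ s : ℤ, (s = 1 ∨ s = -1) → ‖∑ k ∈ (Icc 1 H).filter (fun k : ℕ => 0 < s * ((z : ℤ) * k + x)), w k * χ (z * k + x)‖ ≤
      (J : ℝ) ^ 2 * (N : ℝ) ^ (1 / 2 + δ / 2) := by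
    intro s hs
    have hmaps : ∀ k ∈ (Icc 1 H).filter (fun k : ℕ => 0 < s * ((z : ℤ) * k + x)), tl (s * ((z : ℤ) * k + x)).toNat ∈ range J ×ˢ range J := by
      intro k hk
      rw [mem_filter] at hk
      have h1 := hnX s hs k hk.1
      have h2 : (s * ((z : ℤ) * k + x)).toNat ≠ 0 := by
        have := hk.2
        omega
      obtain ⟨n, hn⟩ : ∃ n : ℕ, n = (s * (z * k + x)).toNat := ⟨_, rfl⟩
      rw [← hn] at h1 h2 ⊢
      have : Fact (Nat.Prime 3) := ⟨Nat.prime_three⟩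
      unfold tl
      rw [mem_product, mem_range, mem_range, hJ, Nat.lt_succ_iff, Nat.lt_succ_iff]
      constructor
      · simp only
        have h3 : 2 ^ padicValNat 3 n ≤ X := by
          calc 2 ^ padicValNat 3 n ≤ 3 ^ padicValNat 3 n := Nat.pow_le_pow_left (by norm_num) _
            _ ≤ n := Nat.le_of_dvd (by omega) pow_padicValNat_dvd
            _ ≤ X := h1
        exact Nat.le_log_of_pow_le (by norm_num) h3
      · simp only
        apply Nat.log_mono_right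
        have h3 : n / 3 ^ padicValNat 3 n ≠ 0 := by
          rw [Nat.div_ne_zero_iff]
          exact ⟨by positivity, Nat.le_of_dvd (by omega) pow_padicValNat_dvd⟩
        exact (cf_le h3).trans ((Nat.div_le_self _ _).trans h1)
    rw [← sum_fiberwise_of_maps_to hmaps]
    have h3 : ∀ τ ∈ range J ×ˢ range J, ‖∑ k ∈ ((Icc 1 H).filter (fun k : ℕ => 0 < s * ((z : ℤ) * k + x))).filter (fun k : ℕ => tl (s * ((z : ℤ) * k + x)).toNat = τ),
        w k * χ (z * k + x)‖ ≤ (N : ℝ) ^ (1 / 2 + δ / 2) := by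
      intro τ hτ
      rw [mem_product, mem_range, mem_range] at hτ
      rw [filter_filter]
      have h4 := sum_KK (τ := τ) (H := H) (x := x) hs hz w χ hχ1 hχm
      unfold KK at h4
      refine h4.trans ?_
      exact h s hs τ.1 τ.2 (by omega) (by omega)
    refine (norm_sum_le _ _).trans ((sum_le_sum h3).trans ?_)
    rw [sum_const, card_product, card_range, nsmul_eq_mul]
    apply le_of_eq
    push_cast
    ring
  have hsplit : ∑ k ∈ Icc 1 H, w k * χ (z * k + x) = ∑ k ∈ (Icc 1 H).filter (fun k : ℕ => 0 < (1 : ℤ) * ((z : ℤ) * k + x)), w k * χ (z * k + x) +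
      (∑ k ∈ (Icc 1 H).filter (fun k : ℕ => 0 < (-1 : ℤ) * ((z : ℤ) * k + x)), w k * χ (z * k + x) +
      ∑ k ∈ (Icc 1 H).filter (fun k : ℕ => (z : ℤ) * k + x = 0), w k * χ (z * k + x)) := by
    rw [sum_filter, sum_filter, sum_filter, ← sum_add_distrib, ← sum_add_distrib]
    apply sum_congr rfl
    intro k _
    rcases lt_trichotomy ((z : ℤ) * k + x) 0 with h1 | h1 | h1
    · rw [if_neg (by linarith), if_pos (by linarith), if_neg (by linarith)]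
      ring
    · rw [if_neg (by linarith), if_neg (by linarith), if_pos h1]
      ring
    · rw [if_pos (by linarith), if_neg (by linarith), if_neg (by linarith)]
      ring
  have hzero : ‖∑ k ∈ (Icc 1 H).filter (fun k : ℕ => (z : ℤ) * k + x = 0), w k * χ (z * k + x)‖ ≤ 1 := by
    refine (norm_sum_le _ _).trans ?_
    have h1 : ∀ k ∈ (Icc 1 H).filter (fun k : ℕ => (z : ℤ) * k + x = 0), ‖w k * χ (z * k + x)‖ ≤ 1 := by
      intro k _
      rw [norm_mul]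
      calc ‖w k‖ * ‖χ (z * k + x)‖ ≤ 1 * 1 := mul_le_mul (hw _) (hχ1 _) (norm_nonneg _) zero_le_one
        _ = 1 := one_mul 1
    refine (sum_le_sum h1).trans ?_
    rw [sum_const, nsmul_eq_mul, mul_one]
    have h2 : ((Icc 1 H).filter (fun k : ℕ => (z : ℤ) * k + x = 0)).card ≤ 1 := by
      rw [card_le_one]
      intro a ha b hb
      rw [mem_filter] at ha hb
      have h3 : (z : ℤ) * a = z * b := by linarith [ha.2, hb.2]
      have h4 : (z : ℤ) ≠ 0 := by omega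
      exact_mod_cast mul_left_cancel₀ h4 h3
    exact_mod_cast h2
  have hJl : (J : ℝ) ≤ 2 * (C + 2) * (Real.log N + 1) := by
    have h7 : (Nat.log 2 X : ℝ) * Real.log 2 ≤ Real.log X := by
      rw [← Real.log_pow]
      apply Real.log_le_log (by positivity)
      exact_mod_cast Nat.pow_log_le_self 2 (by omega : X ≠ 0)
    have h8 : Real.log X = (C + 2) * Real.log N := by
      rw [hX]
      push_cast
      rw [Real.log_pow]
      push_cast
      ring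
    have h9 := Real.log_two_gt_d9
    have h10 : (0 : ℝ) ≤ Nat.log 2 X := Nat.cast_nonneg _
    have h11 : 0 ≤ Real.log N := Real.log_nonneg hN1
    rw [hJ]
    push_cast
    have h12 : (Nat.log 2 X : ℝ) ≤ 2 * ((C + 2) * Real.log N) := by nlinarith
    have h13 : (0 : ℝ) ≤ C := Nat.cast_nonneg _
    nlinarith
  have hl0 : 0 ≤ Real.log N := Real.log_nonneg hN1
  have hJN : (J : ℝ) ≤ (N : ℝ) ^ (δ / 8) := by
    have h1 := hN₁ N (by omega)
    refine (hJl.trans ?_).trans h1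
    apply mul_le_mul_of_nonneg_right _ (by linarith)
    linarith
  have hJ2 : (J : ℝ) ^ 2 ≤ (N : ℝ) ^ (δ / 4) := by
    calc (J : ℝ) ^ 2 ≤ ((N : ℝ) ^ (δ / 8)) ^ 2 := pow_le_pow_left₀ (Nat.cast_nonneg _) hJN 2
      _ = (N : ℝ) ^ (δ / 4) := by
          rw [← Real.rpow_natCast, ← Real.rpow_mul hN0.le]
          congr 1
          push_cast
          ring
  have h3N : (3 : ℝ) ≤ (N : ℝ) ^ (δ / 4) := by
    have h1 : (3 : ℝ) ^ (4 / δ) ≤ N := hN₂.trans (by exact_mod_cast (by omega : N₂ ≤ N))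
    calc (3 : ℝ) = ((3 : ℝ) ^ (4 / δ)) ^ (δ / 4) := by
          rw [← Real.rpow_mul (by norm_num)]
          have : 4 / δ * (δ / 4) = 1 := by field_simp
          rw [this, Real.rpow_one]
      _ ≤ (N : ℝ) ^ (δ / 4) := Real.rpow_le_rpow (by positivity) h1 (by positivity)
  have hone : (1 : ℝ) ≤ (N : ℝ) ^ (δ / 4) * (N : ℝ) ^ (1 / 2 + δ / 2) := by
    rw [← Real.rpow_add hN0]
    exact Real.one_le_rpow hN1 (by positivity)
  rw [hsplit]
  refine (norm_add_le _ _).trans ?_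
  refine (add_le_add_right (norm_add_le _ _) _).trans ?_
  have ha := hsgn 1 (Or.inl rfl)
  have hb := hsgn (-1) (Or.inr rfl)
  have hc : (J : ℝ) ^ 2 * (N : ℝ) ^ (1 / 2 + δ / 2) ≤ (N : ℝ) ^ (δ / 4) * (N : ℝ) ^ (1 / 2 + δ / 2) :=
    mul_le_mul_of_nonneg_right hJ2 (by positivity)
  calc _ ≤ (N : ℝ) ^ (δ / 4) * (N : ℝ) ^ (1 / 2 + δ / 2) + ((N : ℝ) ^ (δ / 4) * (N : ℝ) ^ (1 / 2 + δ / 2) + (N : ℝ) ^ (δ / 4) * (N : ℝ) ^ (1 / 2 + δ / 2)) :=
        add_le_add (ha.trans hc) (add_le_add (hb.trans hc) (hzero.trans hone))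
    _ = 3 * ((N : ℝ) ^ (δ / 4) * (N : ℝ) ^ (1 / 2 + δ / 2)) := by ring
    _ ≤ (N : ℝ) ^ (δ / 4) * ((N : ℝ) ^ (δ / 4) * (N : ℝ) ^ (1 / 2 + δ / 2)) := mul_le_mul_of_nonneg_right h3N (by positivity)
    _ = (N : ℝ) ^ (1 / 2 + δ) := by
        rw [← Real.rpow_add hN0, ← Real.rpow_add hN0]
        congr 1
        ring

end Pool.Agent.H18.RP
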