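import Pool.Graph.R_pool_sql_team_seeded_35f281b4.K7.H57.Cub.Law

set_option autoImplicit false

/-! Tuples in a segment of a progression with a large difference whose product is a cube up to few primes. -/

namespace Pool.Agent.H18.RP
open Finset
open Pool.Agent.K7.H57.Cub

/-- the finite sets of positive integers coprime to `z` which are in one residue class modulo `z` and in an interval of length `z N` -/
structure Seg (z N : ℕ) (S : Finset ℕ) : Prop where
  pos : ∀ n ∈ S, n ≠ 0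
  cop : ∀ n ∈ S, n.Coprime z
  cong : ∀ n ∈ S, ∀ n' ∈ S, n ≤ n' → z ∣ n' - n
  diam : ∀ n ∈ S, ∀ n' ∈ S, n ≤ n' → n' - n ≤ z * N

lemma card_mod (X : Finset ℕ) (m K : ℕ) (hm : 1 ≤ m) (h : ∀ n ∈ X, ∀ n' ∈ X, n ≤ n' → m ∣ n' - n ∧ n' - n ≤ K) :
    X.card ≤ K / m + 1 := by
  rcases X.eq_empty_or_nonempty with h0 | h0
  · rw [h0, card_empty]
    exact Nat.zero_le _
  · obtain ⟨a, ha⟩ : ∃ a, a = X.min' h0 := ⟨_, rfl⟩
    have haX : a ∈ X := by rw [ha]; exact min'_mem X h0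
    have hle : ∀ n ∈ X, a ≤ n := fun n hn => by rw [ha]; exact min'_le X n hn
    have h1 : (X.card) ≤ (range (K / m + 1)).card := by
      refine card_le_card_of_injOn (fun n => (n - a) / m) ?_ ?_
      · intro n hn
        obtain ⟨h2, h3⟩ := h a haX n hn (hle n hn)
        rw [mem_coe, mem_range, Nat.lt_succ_iff]
        exact Nat.div_le_div_right h3
      · intro n hn n' hn' hnn
        obtain ⟨⟨u, hu⟩, -⟩ := h a haX n hn (hle n hn)
        obtain ⟨⟨v, hv⟩, -⟩ := h a haX n' hn' (hle n' hn')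
        have h4 := hle n hn
        have h5 := hle n' hn'
        simp only at hnn
        rw [hu, hv, Nat.mul_div_cancel_left _ (by omega), Nat.mul_div_cancel_left _ (by omega)] at hnn
        rw [hnn] at hu
        omega
    rwa [card_range] at h1

/-- the number of the elements whose cubefree part is divisible by `D` -/
noncomputable def FDS (S : Finset ℕ) (D : ℕ) : ℕ := (S.filter (fun n => D ∣ cf n)).card

lemma FDS_one {z N : ℕ} {S : Finset ℕ} (hS : Seg z N S) (hz : 1 ≤ z) (D : ℕ) (hD : 1 ≤ D) : FDS S D ≤ N / D + 1 := by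
  unfold FDS
  have h1 : ((S.filter (fun n => D ∣ cf n)).card) ≤ (z * N) / (z * D) + 1 := by
    apply card_mod _ _ _ (Nat.mul_pos hz hD)
    intro n hn n' hn' hnn
    rw [mem_filter] at hn hn'
    have d1 : D ∣ n := hn.2.trans (cf_dvd (hS.pos n hn.1))
    have d2 : D ∣ n' := hn'.2.trans (cf_dvd (hS.pos n' hn'.1))
    refine ⟨?_, hS.diam n hn.1 n' hn'.1 hnn⟩
    have hc : Nat.Coprime z D := (Nat.Coprime.coprime_dvd_left d1 (hS.cop n hn.1)).symm
    exact hc.mul_dvd_of_dvd_of_dvd (hS.cong n hn.1 n' hn'.1 hnn) (Nat.dvd_sub d2 d1)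
  rwa [Nat.mul_div_mul_left _ _ hz] at h1

lemma card_cube_one {p k : ℕ} (hp : p.Prime) (hk : 0 < k) :
    ∀ X : Finset (ZMod (p ^ k))ˣ, (∀ g ∈ X, g ^ 3 = 1) → X.card ≤ 3 := by
  classical
  intro X hX
  have : Fact p.Prime := ⟨hp⟩
  have : NeZero (p ^ k) := ⟨pow_ne_zero _ hp.ne_zero⟩
  by_cases h2 : p = 2
  · subst h2
    have h1 : X ⊆ {1} := by
      intro g hg
      rw [mem_singleton]
      have h3 := hX g hg
      have h4 : g ^ (Fintype.card (ZMod (2 ^ k))ˣ) = 1 := pow_card_eq_one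
      rw [ZMod.card_units_eq_totient, Nat.totient_prime_pow Nat.prime_two hk] at h4
      have h5 : orderOf g ∣ 3 := orderOf_dvd_of_pow_eq_one h3
      have h6 : orderOf g ∣ 2 ^ (k - 1) * (2 - 1) := orderOf_dvd_of_pow_eq_one h4
      have h7 : Nat.Coprime 3 (2 ^ (k - 1) * (2 - 1)) := by
        rw [show 2 - 1 = 1 from rfl, mul_one]
        exact Nat.Coprime.pow_right _ (by norm_num)
      have h8 : orderOf g = 1 := Nat.eq_one_of_dvd_coprimes h7 h5 h6
      exact orderOf_eq_one_iff.1 h8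
    calc X.card ≤ ({1} : Finset (ZMod (2 ^ k))ˣ).card := card_le_card h1
      _ ≤ 3 := by rw [card_singleton]; norm_num
  · have : IsCyclic (ZMod (p ^ k))ˣ := ZMod.isCyclic_units_of_prime_pow p hp h2 k
    have h1 : X ⊆ univ.filter (fun g : (ZMod (p ^ k))ˣ => g ^ 3 = 1) := by
      intro g hg
      rw [mem_filter]
      exact ⟨mem_univ _, hX g hg⟩
    exact (card_le_card h1).trans (IsCyclic.card_pow_eq_one_le (by norm_num))

/-- the number of the cube roots modulo `z` -/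
lemma card_roots (z : ℕ) (hz : z ≠ 0) : ∀ X : Finset ℕ, (∀ c ∈ X, c.Coprime z) → (∀ c ∈ X, ∀ c' ∈ X, c ^ 3 ≡ c' ^ 3 [MOD z]) →
    (∀ c ∈ X, ∀ c' ∈ X, c ≡ c' [MOD z] → c = c') → X.card ≤ z.divisors.card ^ 2 := by
  classical
  induction z using Nat.recOnPosPrimePosCoprime with
  | zero => exact absurd rfl hz
  | one =>
    intro X _ _ h
    have : X.card ≤ 1 := card_le_one.2 fun c hc c' hc' => h c hc c' hc' (Nat.modEq_one)
    simpa using this
  | prime_pow p k hp hk =>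
    intro X h1 h2 h3
    have : NeZero (p ^ k) := ⟨pow_ne_zero _ hp.ne_zero⟩
    have h4 : 4 ≤ (p ^ k).divisors.card ^ 2 := by
      rw [Nat.divisors_prime_pow hp, card_map, card_range]
      nlinarith
    refine le_trans ?_ h4
    rcases X.eq_empty_or_nonempty with h0 | ⟨c₀, hc₀⟩
    · rw [h0, card_empty]
      norm_num
    · obtain ⟨f, hf⟩ : ∃ f : ℕ → (ZMod (p ^ k))ˣ, ∀ c ∈ X, ((f c : (ZMod (p ^ k))ˣ) : ZMod (p ^ k)) = (c : ZMod (p ^ k)) := by
        refine ⟨fun c => if h : c.Coprime (p ^ k) then ZMod.unitOfCoprime c h else 1, fun c hc => ?_⟩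
        simp only [dif_pos (h1 c hc), ZMod.coe_unitOfCoprime]
      have hinj : Set.InjOn (fun c => f c * (f c₀)⁻¹) (X : Set ℕ) := by
        intro c hc c' hc' h
        simp only [mul_left_inj] at h
        apply h3 c hc c' hc'
        rw [← ZMod.natCast_eq_natCast_iff, ← hf c hc, ← hf c' hc', h]
      have h5 := card_cube_one hp hk (X.image (fun c => f c * (f c₀)⁻¹)) (by
        intro g hg
        rw [mem_image] at hg
        obtain ⟨c, hc, rfl⟩ := hg
        have h6 : f c ^ 3 = f c₀ ^ 3 := by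
          apply Units.ext
          rw [Units.val_pow_eq_pow_val, Units.val_pow_eq_pow_val, hf c hc, hf c₀ hc₀]
          have := (ZMod.natCast_eq_natCast_iff _ _ _).2 (h2 c hc c₀ hc₀)
          push_cast at this
          exact this
        rw [mul_pow, h6, ← mul_pow, mul_inv_cancel, one_pow])
      rw [card_image_of_injOn hinj] at h5
      omega
  | coprime u v hu hv huv ihu ihv =>
    intro X h1 h2 h3
    have hu0 : u ≠ 0 := by omega
    have hv0 : v ≠ 0 := by omega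
    rw [huv.card_divisors_mul, mul_pow]
    have h4 : (X.image (fun c => c % u)).card ≤ u.divisors.card ^ 2 := by
      apply ihu hu0
      · intro c hc
        rw [mem_image] at hc
        obtain ⟨c, hc, rfl⟩ := hc
        have h5 : c.Coprime u := (h1 c hc).coprime_mul_right_right
        rw [Nat.coprime_iff_gcd_eq_one, ← Nat.gcd_rec, Nat.gcd_comm]
        exact h5
      · intro c hc c' hc'
        rw [mem_image] at hc hc'
        obtain ⟨c, hc, rfl⟩ := hc
        obtain ⟨c', hc', rfl⟩ := hc'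
        have h5 := (h2 c hc c' hc').of_mul_right v
        exact (((Nat.mod_modEq c u).pow 3).trans h5).trans ((Nat.mod_modEq c' u).pow 3).symm
      · intro c hc c' hc' h
        rw [mem_image] at hc hc'
        obtain ⟨c, hc, rfl⟩ := hc
        obtain ⟨c', hc', rfl⟩ := hc'
        have h5 : c % u % u = c' % u % u := h
        rwa [Nat.mod_mod, Nat.mod_mod] at h5
    have h5 : ∀ r ∈ X.image (fun c => c % u), (X.filter (fun c => c % u = r)).card ≤ v.divisors.card ^ 2 := by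
      intro r _
      apply ihv hv0
      · intro c hc
        rw [mem_filter] at hc
        exact (h1 c hc.1).coprime_mul_left_right
      · intro c hc c' hc'
        rw [mem_filter] at hc hc'
        exact (h2 c hc.1 c' hc'.1).of_mul_left u
      · intro c hc c' hc' h
        rw [mem_filter] at hc hc'
        apply h3 c hc.1 c' hc'.1
        have h6 : c ≡ c' [MOD u] := hc.2.trans hc'.2.symm
        exact (Nat.modEq_and_modEq_iff_modEq_mul huv).1 ⟨h6, h⟩
    calc X.card ≤ v.divisors.card ^ 2 * (X.image (fun c => c % u)).card := card_le_mul_card_image _ _ h5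
      _ ≤ v.divisors.card ^ 2 * u.divisors.card ^ 2 := Nat.mul_le_mul_left _ h4
      _ = _ := mul_comm _ _

lemma FDS_two {z N R : ℕ} {S : Finset ℕ} (hS : Seg z N S) (hz : 1 ≤ z) (hR : 1 ≤ R) (hSR : ∀ n ∈ S, R ≤ cf n ∧ cf n < 2 * R) (D : ℕ) (hD : 1 ≤ D) :
    (FDS S D : ℝ) ≤ 2 * R / D * ((z.divisors.card : ℝ) ^ 2 * (1 + ((N : ℝ) / R) ^ (1 / 3 : ℝ))) := by
  classical
  unfold FDS
  have hR0 : (0 : ℝ) < R := by exact_mod_cast hR
  have hD0 : (0 : ℝ) < D := by exact_mod_cast hD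
  have hmaps : ∀ n ∈ S.filter (fun n => D ∣ cf n), cf n ∈ (Icc 1 (2 * R / D)).image (fun k => D * k) := by
    intro n hn
    rw [mem_filter] at hn
    have h1 := hSR n hn.1
    obtain ⟨k, hk⟩ := hn.2
    rw [mem_image]
    refine ⟨k, ?_, hk.symm⟩
    rw [mem_Icc]
    constructor
    · apply Nat.pos_of_ne_zero
      rintro rfl
      rw [mul_zero] at hk
      exact cf_ne n hk
    · rw [Nat.le_div_iff_mul_le (by omega), mul_comm, ← hk]
      omega
  rw [card_eq_sum_card_fiberwise hmaps]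
  push_cast
  have hfib : ∀ r ∈ (Icc 1 (2 * R / D)).image (fun k => D * k),
      (((S.filter (fun n => D ∣ cf n)).filter (fun n => cf n = r)).card : ℝ) ≤ (z.divisors.card : ℝ) ^ 2 * (1 + ((N : ℝ) / R) ^ (1 / 3 : ℝ)) := by
    intro r _
    obtain ⟨Y, hY⟩ : ∃ Y, Y = (S.filter (fun n => D ∣ cf n)).filter (fun n => cf n = r) := ⟨_, rfl⟩
    rw [← hY]
    have hYm : ∀ n ∈ Y, n ∈ S ∧ R ≤ r ∧ cf n = r := by
      intro n hn
      rw [hY, mem_filter, mem_filter] at hn
      have := hSR n hn.1.1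
      exact ⟨hn.1.1, by omega, hn.2⟩
    rcases Y.eq_empty_or_nonempty with h0 | h0
    · rw [h0, card_empty, Nat.cast_zero]
      positivity
    · obtain ⟨n₀, hn₀⟩ := h0
      have hRr : R ≤ r := (hYm n₀ hn₀).2.1
      have hinj : Set.InjOn cr (Y : Set ℕ) := by
        intro n hn n' hn' h
        have h1 := hYm n hn
        have h2 := hYm n' hn'
        rw [← cf_mul_cr (hS.pos n h1.1), ← cf_mul_cr (hS.pos n' h2.1), h, h1.2.2, h2.2.2]
      rw [← card_image_of_injOn hinj]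
      obtain ⟨X, hX⟩ : ∃ X, X = Y.image cr := ⟨_, rfl⟩
      rw [← hX]
      have hXm : ∀ c ∈ X, r * c ^ 3 ∈ S := by
        intro c hc
        rw [hX, mem_image] at hc
        obtain ⟨n, hn, rfl⟩ := hc
        have h1 := hYm n hn
        have e1 := cf_mul_cr (hS.pos n h1.1)
        rw [h1.2.2] at e1
        rw [e1]
        exact h1.1
      have hcopr : ∀ c ∈ X, r.Coprime z ∧ c.Coprime z := by
        intro c hc
        have h1 := hS.cop _ (hXm c hc)
        exact ⟨h1.coprime_mul_right, Nat.Coprime.coprime_dvd_left (dvd_pow_self c (by norm_num)) h1.coprime_mul_left⟩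
      have hdif : ∀ c ∈ X, ∀ c' ∈ X, c ≤ c' → z ∣ r * c' ^ 3 - r * c ^ 3 ∧ r * c' ^ 3 - r * c ^ 3 ≤ z * N := by
        intro c hc c' hc' hcc
        have h1 : r * c ^ 3 ≤ r * c' ^ 3 := Nat.mul_le_mul_left _ (Nat.pow_le_pow_left hcc 3)
        exact ⟨hS.cong _ (hXm c hc) _ (hXm c' hc') h1, hS.diam _ (hXm c hc) _ (hXm c' hc') h1⟩
      have hcube : ∀ c ∈ X, ∀ c' ∈ X, c ^ 3 ≡ c' ^ 3 [MOD z] := by
        have key : ∀ c ∈ X, ∀ c' ∈ X, c ≤ c' → c ^ 3 ≡ c' ^ 3 [MOD z] := by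
          intro c hc c' hc' hcc
          have h1 : r * c ^ 3 ≤ r * c' ^ 3 := Nat.mul_le_mul_left _ (Nat.pow_le_pow_left hcc 3)
          have h2 : r * c ^ 3 ≡ r * c' ^ 3 [MOD z] := (Nat.modEq_iff_dvd' h1).2 (hdif c hc c' hc' hcc).1
          exact Nat.ModEq.cancel_left_of_coprime (by rw [Nat.gcd_comm]; exact (hcopr c hc).1) h2
        intro c hc c' hc'
        rcases le_total c c' with h | h
        · exact key c hc c' hc' h
        · exact (key c' hc' c hc h).symm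
      have hcl : (X.image (fun c => c % z)).card ≤ z.divisors.card ^ 2 := by
        apply card_roots z (by omega)
        · intro c hc
          rw [mem_image] at hc
          obtain ⟨c, hc, rfl⟩ := hc
          have h5 : c.Coprime z := (hcopr c hc).2
          rw [Nat.coprime_iff_gcd_eq_one, ← Nat.gcd_rec, Nat.gcd_comm]
          exact h5
        · intro c hc c' hc'
          rw [mem_image] at hc hc'
          obtain ⟨c, hc, rfl⟩ := hc
          obtain ⟨c', hc', rfl⟩ := hc'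
          exact (((Nat.mod_modEq c z).pow 3).trans (hcube c hc c' hc')).trans ((Nat.mod_modEq c' z).pow 3).symm
        · intro c hc c' hc' h
          rw [mem_image] at hc hc'
          obtain ⟨c, hc, rfl⟩ := hc
          obtain ⟨c', hc', rfl⟩ := hc'
          have h5 : c % z % z = c' % z % z := h
          rwa [Nat.mod_mod, Nat.mod_mod] at h5
      have hclass : ∀ ρ ∈ X.image (fun c => c % z), ((X.filter (fun c => c % z = ρ)).card : ℝ) ≤ 1 + ((N : ℝ) / R) ^ (1 / 3 : ℝ) := by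
        intro ρ _
        have hinj2 : Set.InjOn (fun c => c / z) ((X.filter (fun c => c % z = ρ) : Finset ℕ) : Set ℕ) := by
          intro c hc c' hc' h
          rw [mem_coe, mem_filter] at hc hc'
          simp only at h
          rw [← Nat.div_add_mod c z, ← Nat.div_add_mod c' z, h, hc.2, hc'.2]
        rw [← card_image_of_injOn hinj2]
        have h3 := card_spread ((X.filter (fun c => c % z = ρ)).image (fun c => c / z)) r N (by omega) (by
          intro s hs s' hs' hss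
          rw [mem_image] at hs hs'
          obtain ⟨c, hc, rfl⟩ := hs
          obtain ⟨c', hc', rfl⟩ := hs'
          rw [mem_filter] at hc hc'
          have e1 := Nat.div_add_mod c z
          have e2 := Nat.div_add_mod c' z
          rw [hc.2] at e1
          rw [hc'.2] at e2
          obtain ⟨t, ht⟩ := Nat.exists_eq_add_of_le hss
          rw [ht, Nat.add_sub_cancel_left]
          have e3 : c' = c + z * t := by
            rw [ht] at e2
            rw [← e1, ← e2]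
            ring
          have h4 := (hdif c hc.1 c' hc'.1 (by omega)).2
          have h5 : r * c' ^ 3 = r * c ^ 3 + (z * (r * (3 * c ^ 2 * t + 3 * c * z * t ^ 2)) + z * (z ^ 2 * (t ^ 3 * r))) := by
            rw [e3]
            ring
          rw [h5, Nat.add_sub_cancel_left, ← mul_add] at h4
          have h6 := Nat.le_of_mul_le_mul_left h4 hz
          have h7 : 1 * (t ^ 3 * r) ≤ z ^ 2 * (t ^ 3 * r) := Nat.mul_le_mul_right _ (Nat.one_le_pow _ _ hz)
          rw [one_mul] at h7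
          omega)
        refine h3.trans ?_
        have h6 : (N : ℝ) / r ≤ N / R := by
          apply div_le_div_of_nonneg_left (Nat.cast_nonneg _) hR0
          exact_mod_cast hRr
        have h7 : ((N : ℝ) / r) ^ (1 / 3 : ℝ) ≤ ((N : ℝ) / R) ^ (1 / 3 : ℝ) := Real.rpow_le_rpow (by positivity) h6 (by norm_num)
        linarith
      have h8 : (X.card : ℝ) = ∑ ρ ∈ X.image (fun c => c % z), ((X.filter (fun c => c % z = ρ)).card : ℝ) := by
        have := card_eq_sum_card_image (fun c => c % z) X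
        exact_mod_cast this
      rw [h8]
      refine (sum_le_sum hclass).trans ?_
      rw [sum_const, nsmul_eq_mul]
      apply mul_le_mul_of_nonneg_right _ (by positivity)
      exact_mod_cast hcl
  refine (sum_le_sum hfib).trans ?_
  rw [sum_const, nsmul_eq_mul]
  apply mul_le_mul_of_nonneg_right _ (by positivity)
  have h1 : (((Icc 1 (2 * R / D)).image (fun k => D * k)).card : ℝ) ≤ ((2 * R / D : ℕ) : ℝ) := by
    have := card_image_le (s := Icc 1 (2 * R / D)) (f := fun k => D * k)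
    rw [Nat.card_Icc, Nat.add_sub_cancel] at this
    exact_mod_cast this
  refine h1.trans ?_
  have := Nat.cast_div_le (α := ℝ) (m := 2 * R) (n := D)
  push_cast at this
  exact this

/-- **the step** -/
lemma stepS (N R : ℕ) (hN : 2 ≤ N) (hR : 1 ≤ R) : ∃ θ : ℝ, 0 ≤ θ ∧ θ ≤ 1 ∧ ∀ (z : ℕ) (S : Finset ℕ), Seg z N S → 1 ≤ z →
    (∀ n ∈ S, R ≤ cf n ∧ cf n < 2 * R) → ∀ D : ℕ, 1 ≤ D →
    (D : ℝ) ^ θ * FDS S D ≤ (z.divisors.card : ℝ) ^ 2 * (4 * (N : ℝ) ^ (1 / 2 : ℝ) * (R : ℝ) ^ (θ / 2)) := by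
  have hN0 : (0 : ℝ) < N := by exact_mod_cast (by omega : 0 < N)
  have hN1 : (1 : ℝ) ≤ N := by exact_mod_cast (by omega : 1 ≤ N)
  have hR0 : (0 : ℝ) < R := by exact_mod_cast hR
  have hR1 : (1 : ℝ) ≤ R := by exact_mod_cast hR
  have hτ : ∀ z : ℕ, 1 ≤ z → (1 : ℝ) ≤ (z.divisors.card : ℝ) ^ 2 := by
    intro z hz
    have h1 : 1 ≤ z.divisors.card := card_pos.2 ⟨1, Nat.one_mem_divisors.2 (by omega)⟩
    have h2 : (1 : ℝ) ≤ z.divisors.card := by exact_mod_cast h1
    nlinarith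
  rcases le_or_gt N R with h | h
  · -- large cubefree parts
    have hR2 : (1 : ℝ) < R := by exact_mod_cast (by omega : 1 < R)
    have hlR : 0 < Real.log R := Real.log_pos hR2
    have hlN : 0 ≤ Real.log N := Real.log_nonneg hN1
    have hlNR : Real.log N ≤ Real.log R := Real.log_le_log hN0 (by exact_mod_cast h)
    obtain ⟨θ, hθ⟩ : ∃ θ : ℝ, θ = Real.log N / Real.log R := ⟨_, rfl⟩
    have hθ0 : 0 ≤ θ := by rw [hθ]; positivity
    have hθ1 : θ ≤ 1 := by rw [hθ, div_le_one hlR]; exact hlNR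
    have hRθ : (R : ℝ) ^ θ = N := by
      rw [Real.rpow_def_of_pos hR0, hθ, mul_div_cancel₀ _ hlR.ne', Real.exp_log hN0]
    have hRθ2 : (R : ℝ) ^ (θ / 2) = (N : ℝ) ^ (1 / 2 : ℝ) := by
      rw [← hRθ, ← Real.rpow_mul hR0.le]
      congr 1
      ring
    refine ⟨θ, hθ0, hθ1, fun z S hS hz hSR D hD => ?_⟩
    have hNN : 4 * (N : ℝ) ^ (1 / 2 : ℝ) * (N : ℝ) ^ (1 / 2 : ℝ) = 4 * N := by
      rw [mul_assoc, ← Real.rpow_add hN0]
      norm_num
    rw [hRθ2, hNN]
    have hD0 : (0 : ℝ) < D := by exact_mod_cast hD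
    have hD1 : (1 : ℝ) ≤ D := by exact_mod_cast hD
    have key : (D : ℝ) ^ θ * FDS S D ≤ 4 * N := by
      rcases Nat.eq_zero_or_pos (FDS S D) with h0 | h0
      · rw [h0, Nat.cast_zero, mul_zero]
        positivity
      · have hD2 : (D : ℝ) ≤ 2 * R := by
          unfold FDS at h0
          obtain ⟨n, hn⟩ := card_pos.1 h0
          rw [mem_filter] at hn
          have h1 := Nat.le_of_dvd (Nat.pos_of_ne_zero (cf_ne n)) hn.2
          have h2 := hSR n hn.1
          exact_mod_cast (by omega : D ≤ 2 * R)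
        have h1 : (FDS S D : ℝ) ≤ (N : ℝ) / D + 1 := by
          have h2 := FDS_one hS hz D hD
          have h3 := Nat.cast_div_le (α := ℝ) (m := N) (n := D)
          have h4 : (FDS S D : ℝ) ≤ ((N / D : ℕ) : ℝ) + 1 := by exact_mod_cast h2
          linarith
        have h2 : (D : ℝ) ^ θ ≤ D := by
          calc (D : ℝ) ^ θ ≤ (D : ℝ) ^ (1 : ℝ) := Real.rpow_le_rpow_of_exponent_le hD1 hθ1
            _ = D := Real.rpow_one _
        have h3 : (D : ℝ) ^ θ ≤ 2 * N := by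
          calc (D : ℝ) ^ θ ≤ (2 * (R : ℝ)) ^ θ := Real.rpow_le_rpow hD0.le hD2 hθ0
            _ = (2 : ℝ) ^ θ * (R : ℝ) ^ θ := Real.mul_rpow (by norm_num) hR0.le
            _ ≤ 2 * N := by
                rw [hRθ]
                apply mul_le_mul_of_nonneg_right _ hN0.le
                calc (2 : ℝ) ^ θ ≤ (2 : ℝ) ^ (1 : ℝ) := Real.rpow_le_rpow_of_exponent_le (by norm_num) hθ1
                  _ = 2 := Real.rpow_one _
        calc (D : ℝ) ^ θ * FDS S D ≤ (D : ℝ) ^ θ * ((N : ℝ) / D + 1) := mul_le_mul_of_nonneg_left h1 (by positivity)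
          _ = (D : ℝ) ^ θ / D * N + (D : ℝ) ^ θ := by ring
          _ ≤ 1 * N + 2 * N := by
              apply add_le_add _ h3
              apply mul_le_mul_of_nonneg_right _ hN0.le
              rw [div_le_one hD0]
              exact h2
          _ ≤ 4 * N := by linarith
    calc _ ≤ 4 * (N : ℝ) := key
      _ = 1 * (4 * N) := (one_mul _).symm
      _ ≤ _ := mul_le_mul_of_nonneg_right (hτ z hz) (by positivity)
  · -- small cubefree parts
    refine ⟨1, zero_le_one, le_refl 1, fun z S hS hz hSR D hD => ?_⟩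
    have hD0 : (0 : ℝ) < D := by exact_mod_cast hD
    have hNR : (1 : ℝ) ≤ (N : ℝ) / R := by
      rw [one_le_div hR0]
      exact_mod_cast h.le
    have h1 := FDS_two hS hz hR hSR D hD
    obtain ⟨u, hu⟩ : ∃ u : ℝ, u = (N : ℝ) / R := ⟨_, rfl⟩
    obtain ⟨τ, hτ'⟩ : ∃ τ : ℝ, τ = (z.divisors.card : ℝ) ^ 2 := ⟨_, rfl⟩
    have hτ0 : 0 ≤ τ := by rw [hτ']; positivity
    rw [← hu, ← hτ'] at h1
    rw [← hu] at hNR
    rw [← hτ']
    have h2 : u ^ (1 / 3 : ℝ) ≤ u ^ (1 / 2 : ℝ) := Real.rpow_le_rpow_of_exponent_le hNR (by norm_num)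
    have h3 : 1 ≤ u ^ (1 / 2 : ℝ) := Real.one_le_rpow hNR (by norm_num)
    have h4 : (R : ℝ) * u ^ (1 / 2 : ℝ) = (N : ℝ) ^ (1 / 2 : ℝ) * (R : ℝ) ^ (1 / 2 : ℝ) := by
      rw [hu, Real.div_rpow hN0.le hR0.le]
      have h5 : (R : ℝ) = (R : ℝ) ^ (1 / 2 : ℝ) * (R : ℝ) ^ (1 / 2 : ℝ) := by
        rw [← Real.rpow_add hR0]
        norm_num
      have h6 : 0 < (R : ℝ) ^ (1 / 2 : ℝ) := by positivity
      field_simp
      conv_rhs => rw [sq, ← h5]
    rw [Real.rpow_one]
    calc (D : ℝ) * FDS S D ≤ D * (2 * R / D * (τ * (1 + u ^ (1 / 3 : ℝ)))) := mul_le_mul_of_nonneg_left h1 hD0.le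
      _ = τ * (2 * R * (1 + u ^ (1 / 3 : ℝ))) := by field_simp
      _ ≤ τ * (2 * R * (u ^ (1 / 2 : ℝ) + u ^ (1 / 2 : ℝ))) := by
          apply mul_le_mul_of_nonneg_left _ hτ0
          apply mul_le_mul_of_nonneg_left _ (by positivity)
          linarith
      _ = τ * (4 * (R * u ^ (1 / 2 : ℝ))) := by ring
      _ = _ := by rw [h4]; ring

/-- the sum for one element -/
lemma one_sumS (S : Finset ℕ) (V : ℕ) (hV : V ≠ 0) (θ E : ℝ) (h : ∀ D : ℕ, 1 ≤ D → (D : ℝ) ^ θ * FDS S D ≤ E) :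
    ∑ n ∈ S, (Nat.gcd (cf n) (V ^ 2) : ℝ) ^ θ ≤ ((V ^ 2).divisors.card : ℝ) * E := by
  classical
  have hmaps : ∀ n ∈ S, Nat.gcd (cf n) (V ^ 2) ∈ (V ^ 2).divisors := by
    intro n _
    rw [Nat.mem_divisors]
    exact ⟨Nat.gcd_dvd_right _ _, pow_ne_zero _ hV⟩
  rw [← sum_fiberwise_of_maps_to hmaps, ← nsmul_eq_mul]
  apply sum_le_card_nsmul
  intro D hD
  have hD1 : 1 ≤ D := Nat.pos_of_mem_divisors hD
  have h1 : ∀ n ∈ S.filter (fun n => Nat.gcd (cf n) (V ^ 2) = D), (Nat.gcd (cf n) (V ^ 2) : ℝ) ^ θ = (D : ℝ) ^ θ := by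
    intro n hn
    rw [mem_filter] at hn
    rw [hn.2]
  rw [sum_congr rfl h1, sum_const, nsmul_eq_mul, mul_comm]
  refine le_trans ?_ (h D hD1)
  apply mul_le_mul_of_nonneg_left _ (by positivity)
  unfold FDS
  have h2 : S.filter (fun n => Nat.gcd (cf n) (V ^ 2) = D) ⊆ S.filter (fun n => D ∣ cf n) := by
    intro n hn
    rw [mem_filter] at hn ⊢
    refine ⟨hn.1, ?_⟩
    rw [← hn.2]
    exact Nat.gcd_dvd_left _ _
  exact_mod_cast card_le_card h2

/-- **The weighted number of the tuples.** -/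
theorem coreS (m : ℕ) (hm : 1 ≤ m) (ε : ℝ) (hε : 0 < ε) (A C : ℕ) : ∃ K : ℝ, 0 < K ∧ ∀ N z R B : ℕ, 2 ≤ N → 1 ≤ z → z ≤ N ^ C → 1 ≤ R →
    B ≠ 0 → B ≤ N ^ A → ∀ S : Finset ℕ, Seg z N S → (∀ n ∈ S, n ≤ N ^ C) → (∀ n ∈ S, R ≤ cf n ∧ cf n < 2 * R) →
    ∀ s : Fin m → ℕ, (∀ j, s j = 1 ∨ s j = 2) →
    ∑ g ∈ Fintype.piFinset (fun _ : Fin m => S), 1 / (Zr (∏ j, g j ^ s j) B : ℝ) ≤ K * (N : ℝ) ^ ((m : ℝ) / 2 + ε) := by
  classical
  have hmr : (1 : ℝ) ≤ m := by exact_mod_cast hm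
  obtain ⟨E, hE⟩ : ∃ E, E = A + C * m + 1 := ⟨_, rfl⟩
  have hEr : (1 : ℝ) ≤ E := by exact_mod_cast (by omega : 1 ≤ E)
  obtain ⟨D, hD0, hD⟩ := H353.divisor_bound_real (ε / (4 * E * m)) (by positivity)
  obtain ⟨D', hD'0, hD'⟩ := H353.divisor_bound_real (ε / (4 * (C + 1) * m)) (by positivity)
  refine ⟨(4 * D * D' ^ 2) ^ m, by positivity, fun N z R B hN hz hzC hR hB hBA S hS hST hSR s hs => ?_⟩
  have hN0 : (0 : ℝ) < N := by exact_mod_cast (by omega : 0 < N)
  have hN1 : (1 : ℝ) ≤ N := by exact_mod_cast (by omega : 1 ≤ N)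
  have hR0 : (0 : ℝ) < R := by exact_mod_cast hR
  obtain ⟨θ, hθ0, hθ1, hθ⟩ := stepS N R hN hR
  obtain ⟨T, hT⟩ : ∃ T, T = N ^ C := ⟨_, rfl⟩
  have hT1 : 1 ≤ T := by rw [hT]; exact Nat.one_le_pow _ _ (by omega)
  obtain ⟨P, hP⟩ : ∃ P, P = B * T ^ m := ⟨_, rfl⟩
  have hPN : P ≤ N ^ E := by
    rw [hP, hT]
    calc B * (N ^ C) ^ m ≤ N ^ A * (N ^ C) ^ m := Nat.mul_le_mul_right _ hBA
      _ = N ^ (A + C * m) := by rw [← pow_mul, ← pow_add]
      _ ≤ N ^ E := Nat.pow_le_pow_right (by omega) (by omega)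
  obtain ⟨K₁, hK₁⟩ : ∃ K₁ : ℝ, K₁ = (D * (N : ℝ) ^ (ε / (2 * m))) * ((D' * (N : ℝ) ^ (ε / (4 * m))) ^ 2 * (4 * (N : ℝ) ^ (1 / 2 : ℝ) * (R : ℝ) ^ (θ / 2))) := ⟨_, rfl⟩
  have hK₁0 : 0 ≤ K₁ := by rw [hK₁]; positivity
  obtain ⟨f, hf⟩ : ∃ f : ℕ → ℕ → ℝ, f = fun n V => (Nat.gcd (cf n) (V ^ 2) : ℝ) ^ θ := ⟨_, rfl⟩
  have hf0 : ∀ n V, 0 ≤ f n V := fun n V => by rw [hf]; positivity
  have hzd : (z.divisors.card : ℝ) ≤ D' * (N : ℝ) ^ (ε / (4 * m)) := by
    refine (hD' z (by omega)).trans ?_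
    apply mul_le_mul_of_nonneg_left _ hD'0.le
    have h1 : (z : ℝ) ≤ (N : ℝ) ^ ((C : ℕ) : ℝ) := by
      rw [Real.rpow_natCast]
      exact_mod_cast hzC
    calc (z : ℝ) ^ (ε / (4 * (C + 1) * m)) ≤ ((N : ℝ) ^ ((C : ℕ) : ℝ)) ^ (ε / (4 * (C + 1) * m)) := Real.rpow_le_rpow (Nat.cast_nonneg _) h1 (by positivity)
      _ = (N : ℝ) ^ ((C : ℝ) * (ε / (4 * (C + 1) * m))) := by rw [← Real.rpow_mul hN0.le]
      _ ≤ (N : ℝ) ^ (ε / (4 * m)) := by
          apply Real.rpow_le_rpow_of_exponent_le hN1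
          have h2 : (C : ℝ) * (ε / (4 * (C + 1) * m)) = (C / (C + 1)) * (ε / (4 * m)) := by field_simp
          rw [h2]
          have h3 : (C : ℝ) / (C + 1) ≤ 1 := by
            rw [div_le_one (by positivity)]
            linarith
          calc (C : ℝ) / (C + 1) * (ε / (4 * m)) ≤ 1 * (ε / (4 * m)) := mul_le_mul_of_nonneg_right h3 (by positivity)
            _ = _ := one_mul _
  have hSs : ∀ V : ℕ, V ≠ 0 → V ≤ P → ∑ n ∈ S, f n V ≤ K₁ := by
    intro V hV hVP
    rw [hf, hK₁]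
    refine (one_sumS S V hV θ _ (fun D hD => hθ z S hS hz hSR D hD)).trans ?_
    have h1 : ((V ^ 2).divisors.card : ℝ) ≤ D * (N : ℝ) ^ (ε / (2 * m)) := by
      refine (hD (V ^ 2) (pow_ne_zero _ hV)).trans ?_
      apply mul_le_mul_of_nonneg_left _ hD0.le
      have h1 : ((V ^ 2 : ℕ) : ℝ) ≤ (N : ℝ) ^ ((2 * E : ℕ) : ℝ) := by
        rw [Real.rpow_natCast]
        have : V ^ 2 ≤ N ^ (2 * E) := by
          calc V ^ 2 ≤ (N ^ E) ^ 2 := Nat.pow_le_pow_left (hVP.trans hPN) 2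
            _ = N ^ (2 * E) := by rw [← pow_mul, mul_comm]
        exact_mod_cast this
      calc ((V ^ 2 : ℕ) : ℝ) ^ (ε / (4 * E * m)) ≤ ((N : ℝ) ^ ((2 * E : ℕ) : ℝ)) ^ (ε / (4 * E * m)) := Real.rpow_le_rpow (Nat.cast_nonneg _) h1 (by positivity)
        _ = (N : ℝ) ^ (ε / (2 * m)) := by
            rw [← Real.rpow_mul hN0.le]
            congr 1
            push_cast
            field_simp
            norm_num
    apply mul_le_mul h1 _ (by positivity) (by positivity)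
    apply mul_le_mul_of_nonneg_right _ (by positivity)
    exact pow_le_pow_left₀ (Nat.cast_nonneg _) hzd 2
  have haT : ∀ n ∈ S, cf n ≤ T := by
    intro n hn
    rw [hT]
    exact (cf_le (hS.pos n hn)).trans (hST n hn)
  have h1 := seq_pre S cf f hf0 T P hT1 cf_ne haT K₁ hK₁0 hSs m B hB (by rw [hP])
  have h2 := seq_post S cf f hf0 T P hT1 cf_ne haT K₁ hK₁0 hSs m B hB (by rw [hP])
  have hQ0 : (0 : ℝ) < ((R : ℝ) ^ (θ / 2)) ^ m := by positivity
  have h3 : ∀ g ∈ Fintype.piFinset (fun _ : Fin m => S), 1 / (Zr (∏ j, g j ^ s j) B : ℝ) ≤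
      (∏ j, f (g j) (B * pre (fun i => cf (g i)) j) + ∏ j, f (g j) (B * post (fun i => cf (g i)) j)) / 2 / ((R : ℝ) ^ (θ / 2)) ^ m := by
    intro g hg
    rw [Fintype.mem_piFinset] at hg
    have h4 := weight_le B R hB hR g s (fun j => hS.pos _ (hg j)) hs (fun j => (hSR _ (hg j)).1) θ hθ0 hθ1
    rw [hf]
    exact h4
  refine (sum_le_sum h3).trans ?_
  rw [← sum_div, ← sum_div, sum_add_distrib, div_le_iff₀ hQ0]
  have h5 : (4 * D * D' ^ 2) ^ m * (N : ℝ) ^ ((m : ℝ) / 2 + ε) * ((R : ℝ) ^ (θ / 2)) ^ m = K₁ ^ m := by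
    rw [hK₁]
    have e1 : (N : ℝ) ^ ((m : ℝ) / 2 + ε) = ((N : ℝ) ^ (1 / 2 : ℝ)) ^ m * (((N : ℝ) ^ (ε / (2 * m))) ^ m * (((N : ℝ) ^ (ε / (4 * m))) ^ 2) ^ m) := by
      rw [← pow_mul, ← Real.rpow_natCast, ← Real.rpow_natCast, ← Real.rpow_natCast, ← Real.rpow_mul hN0.le, ← Real.rpow_mul hN0.le,
        ← Real.rpow_mul hN0.le, ← Real.rpow_add hN0, ← Real.rpow_add hN0]
      congr 1
      push_cast
      field_simp
      ring
    rw [e1]
    ring
  rw [h5]
  linarith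

end Pool.Agent.H18.RP
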